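import Pool.Agent.Q253.LM.Stm

/-!
# Job LM-TC: Taylor coefficients of an even function from a power series
-/

set_option autoImplicit false

namespace Pool.Agent.Q223.LM

open Filter Topology

theorem t_TC : Pool.Agent.Q253.LM.S_TC := by
  intro F a h0 heven hodd hsum k
  -- the series represents `F` near zero
  have hall : ∀ x : ℝ, |x| ≤ 1 / 8 → HasSum (fun k : ℕ => x ^ k / (k.factorial : ℝ) * a k) (F x) := by
    intro x hx
    rcases lt_trichotomy x 0 with h | h | h
    · have h1 := hsum (-x) (by linarith) (by rw [abs_of_neg h] at hx; exact hx)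
      rw [heven] at h1
      have h2 : (fun k : ℕ => x ^ k / (k.factorial : ℝ) * a k) =
          fun k : ℕ => (-x) ^ k / (k.factorial : ℝ) * a k := by
        funext j
        rcases Nat.even_or_odd j with hj | hj
        · rw [hj.neg_pow]
        · rw [hodd j hj, mul_zero, mul_zero]
      rw [h2]
      exact h1
    · subst h
      have h1 := hasSum_single (f := fun k : ℕ => (0 : ℝ) ^ k / (k.factorial : ℝ) * a k) 0 (by
        intro b hb
        rw [zero_pow hb, zero_div, zero_mul])
      have h2 : (0 : ℝ) ^ 0 / ((0 : ℕ).factorial : ℝ) * a 0 = F 0 := by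
        rw [h0, pow_zero, Nat.factorial_zero, Nat.cast_one, div_one, one_mul]
      rw [h2] at h1
      exact h1
    · exact hsum x h (by rw [abs_of_pos h] at hx; exact hx)
  have hp : HasFPowerSeriesOnBall F
      (FormalMultilinearSeries.ofScalars ℝ fun n : ℕ => a n / (n.factorial : ℝ)) 0
      ((1 / 8 : NNReal) : ENNReal) := by
    refine ⟨?_, ?_, ?_⟩
    · refine FormalMultilinearSeries.le_radius_of_tendsto _ (l := 0) ?_
      have h1 := (hall (1 / 8) (by norm_num)).summable.tendsto_atTop_zero
      have h2 := h1.norm
      rw [norm_zero] at h2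
      refine h2.congr fun n => ?_
      rw [FormalMultilinearSeries.ofScalars_norm, norm_mul, norm_div, norm_div, norm_pow]
      have h3 : ‖(1 / 8 : ℝ)‖ = ((1 / 8 : NNReal) : ℝ) := by
        rw [Real.norm_of_nonneg (by norm_num)]
        push_cast
        rfl
      rw [h3]
      ring
    · rw [ENNReal.coe_pos]
      norm_num
    · intro y hy
      rw [zero_add]
      have h1 : |y| ≤ 1 / 8 := by
        rw [Metric.eball_coe, Metric.mem_ball, dist_zero_right, Real.norm_eq_abs] at hy
        push_cast at hy
        exact hy.le
      have h2 : (fun n : ℕ => (FormalMultilinearSeries.ofScalars ℝ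
          fun n : ℕ => a n / (n.factorial : ℝ)) n fun _ => y) =
          fun k : ℕ => y ^ k / (k.factorial : ℝ) * a k := by
        funext n
        rw [FormalMultilinearSeries.ofScalars_apply_eq, smul_eq_mul]
        ring
      rw [h2]
      exact hall y h1
  have h1 := hp.factorial_smul 1 k
  rw [iteratedDeriv_eq_iteratedFDeriv, ← h1, FormalMultilinearSeries.ofScalars_apply_eq, one_pow,
    smul_eq_mul, mul_one, nsmul_eq_mul]
  have h2 : (k.factorial : ℝ) ≠ 0 := by exact_mod_cast k.factorial_ne_zero
  field_simp

end Pool.Agent.Q223.LM
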